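import Mathlib
import Pool.Agent.Lib.helper26.BkrB

namespace Pool.Agent.Results.MP_890654_pr.Distinct
open Pool.Agent.Lib.helper26.Bkr

theorem result (r : ℕ) (hr : 3 ≤ r) :
    ∃ (S : Type) (_ : Nonempty S) (d : ℕ) (_ : 1 ≤ d) (A : ℕ → Set (Fin d → S)),
      ∀ T T' : Br, T.size = r → T'.size = r → T ≠ T' → T.eval A 0 ≠ T'.eval A 0 := by
  classical
  let τ := Fin r × Fin r × Fin r
  have : Nonempty (Fin r) := ⟨⟨0, by omega⟩⟩
  refine ⟨Bool, inferInstance, Fintype.card (τ × Fin 4), Fintype.card_pos,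
    fun m => pull (Fintype.equivFin _) (Pw fun t : τ => sg t.1 t.2.1 t.2.2 m), ?_⟩
  intro T T' hT hT' hne he
  rw [eval_pull, eval_pull] at he
  have he' := pull_inj _ he
  rw [eval_Pw (fun t : τ => sg t.1 t.2.1 t.2.2), eval_Pw (fun t : τ => sg t.1 t.2.1 t.2.2)] at he'
  have h1 : (fun c : τ × Fin 4 => tw T c.1.1 c.1.2.1 c.1.2.2 c.2) ∈
      Pw fun t : τ => T.eval (sg t.1 t.2.1 t.2.2) 0 := fun t => tw_mem T _ _ _
  rw [he'] at h1
  refine hne (eq_of_fol (tw T) T T' 0 (by omega) (tw_fol T) fun i j k _ hi _ hj _ hk => ?_)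
  exact h1 (⟨i, by omega⟩, ⟨j, by omega⟩, ⟨k, by omega⟩)

end Pool.Agent.Results.MP_890654_pr.Distinct
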